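import Mathlib

/-!
# Asymptotic subspaces of vector valued symmetric bilinear forms of nonpositive curvature
-/

set_option autoImplicit false

namespace Pool.Agent.TH420.HS

open Module

variable {V W : Type} [NormedAddCommGroup V] [InnerProductSpace ℝ V]
  [NormedAddCommGroup W] [InnerProductSpace ℝ W]

/-- The curvature tensor given by the Gauss equation for the second fundamental form `β`. -/
noncomputable def gaussT (β : V →ₗ[ℝ] V →ₗ[ℝ] W) (x y z w : V) : ℝ :=
  inner ℝ (β x z) (β y w) - inner ℝ (β x w) (β y z)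

theorem poly_nonneg {c₁ c₂ c₃ c₄ : ℝ} (h : ∀ t : ℝ, 0 ≤ c₁ * t + c₂ * t ^ 2 + c₃ * t ^ 3 + c₄ * t ^ 4) :
    c₁ = 0 ∧ 0 ≤ c₂ := by
  have key : ∀ d₁ d₂ d₃ d₄ : ℝ, (∀ t : ℝ, 0 < t → 0 ≤ d₁ * t + d₂ * t ^ 2 + d₃ * t ^ 3 + d₄ * t ^ 4) →
      0 ≤ d₁ := by
    intro d₁ d₂ d₃ d₄ hd
    refine le_of_forall_pos_le_add fun ε hε => ?_
    set K := |d₂| + |d₃| + |d₄| + 1 with hK
    have hKp : 0 < K := by positivity
    set t := min 1 (ε / K) with ht
    have ht0 : 0 < t := lt_min one_pos (div_pos hε hKp)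
    have ht1 : t ≤ 1 := min_le_left _ _
    have htK : t * K ≤ ε := by
      have := min_le_right 1 (ε / K)
      calc t * K ≤ ε / K * K := mul_le_mul_of_nonneg_right this hKp.le
        _ = ε := by field_simp
    have h1 := hd t ht0
    have h2 : d₁ * t + d₂ * t ^ 2 + d₃ * t ^ 3 + d₄ * t ^ 4 =
        t * (d₁ + (d₂ * t + d₃ * t ^ 2 + d₄ * t ^ 3)) := by ring
    rw [h2] at h1
    have h3 := nonneg_of_mul_nonneg_right h1 ht0
    have h4 : d₂ * t ≤ |d₂| * t := mul_le_mul_of_nonneg_right (le_abs_self _) ht0.le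
    have ht2 : t ^ 2 ≤ t := by nlinarith
    have ht3 : t ^ 3 ≤ t := by nlinarith [sq_nonneg t]
    have h5 : d₃ * t ^ 2 ≤ |d₃| * t :=
      (mul_le_mul_of_nonneg_right (le_abs_self _) (by positivity)).trans
        (mul_le_mul_of_nonneg_left ht2 (abs_nonneg _))
    have h6 : d₄ * t ^ 3 ≤ |d₄| * t :=
      (mul_le_mul_of_nonneg_right (le_abs_self _) (by positivity)).trans
        (mul_le_mul_of_nonneg_left ht3 (abs_nonneg _))
    have h7 : t * K = |d₂| * t + |d₃| * t + |d₄| * t + t := by rw [hK]; ring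
    linarith
  have h1 : 0 ≤ c₁ := key c₁ c₂ c₃ c₄ fun t _ => h t
  have h2 : 0 ≤ -c₁ := by
    refine key (-c₁) c₂ (-c₃) c₄ fun t _ => ?_
    have := h (-t)
    ring_nf at this ⊢
    linarith
  have h3 : c₁ = 0 := le_antisymm (by linarith) h1
  refine ⟨h3, key c₂ c₃ c₄ 0 fun t ht => ?_⟩
  have h4 := h t
  rw [h3] at h4
  have h5 : 0 * t + c₂ * t ^ 2 + c₃ * t ^ 3 + c₄ * t ^ 4 =
      t * (c₂ * t + c₃ * t ^ 2 + c₄ * t ^ 3 + 0 * t ^ 4) := by ring
  rw [h5] at h4
  exact nonneg_of_mul_nonneg_right h4 ht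

/-- **Otsuki's lemma.** -/
theorem otsuki [FiniteDimensional ℝ V] [FiniteDimensional ℝ W] (β : V →ₗ[ℝ] V →ₗ[ℝ] W)
    (hs : ∀ x y, β x y = β y x) (hK : ∀ x y, gaussT β x y x y ≤ 0) (N : Submodule ℝ V)
    (Z : Submodule ℝ W) (hNZ : ∀ x ∈ N, ∀ y ∈ N, β x y ∈ Z) (h : finrank ℝ Z < finrank ℝ N) :
    ∃ x ∈ N, x ≠ 0 ∧ β x x = 0 := by
  by_contra hc
  push Not at hc
  have hN : Nontrivial N := by
    apply Module.nontrivial_of_finrank_pos (R := ℝ)
    omega
  obtain ⟨x₁, hx₁⟩ := exists_ne (0 : N)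
  have hcont : Continuous fun x : N => ‖β (x : V) (x : V)‖ ^ 2 := by
    have h1 : Continuous fun x : V => β x x := by
      have h2 : Continuous fun p : V × V => β p.1 p.2 := by
        let B : V →ₗ[ℝ] V →L[ℝ] W := (LinearMap.toContinuousLinearMap :
          (V →ₗ[ℝ] W) ≃ₗ[ℝ] (V →L[ℝ] W)).toLinearMap ∘ₗ β
        have h3 : Continuous B := B.continuous_of_finiteDimensional
        exact (h3.comp continuous_fst).clm_apply continuous_snd
      exact h2.comp (continuous_id.prodMk continuous_id)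
    exact (((h1.comp continuous_subtype_val)).norm).pow 2
  have hne : (Metric.sphere (0 : N) 1).Nonempty := by
    refine ⟨(‖x₁‖⁻¹) • x₁, ?_⟩
    rw [mem_sphere_zero_iff_norm, norm_smul, norm_inv, norm_norm]
    exact inv_mul_cancel₀ (norm_ne_zero_iff.mpr hx₁)
  obtain ⟨x, hx, hmin⟩ := (isCompact_sphere (0 : N) 1).exists_isMinOn hne hcont.continuousOn
  rw [mem_sphere_zero_iff_norm] at hx
  have hxn : ‖(x : V)‖ = 1 := hx
  have hx0 : (x : V) ≠ 0 := by
    intro h0; rw [h0, norm_zero] at hxn; exact zero_ne_one hxn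
  set a := β (x : V) (x : V) with ha
  have ha0 : a ≠ 0 := hc x x.2 hx0
  have hhom : ∀ v : V, v ∈ N → ‖a‖ ^ 2 * (‖v‖ ^ 2) ^ 2 ≤ ‖β v v‖ ^ 2 := by
    intro v hv
    by_cases hv0 : v = 0
    · simp [hv0]
    have hvn : ‖v‖ ≠ 0 := norm_ne_zero_iff.mpr hv0
    have h1 := hmin (a := (‖v‖⁻¹) • (⟨v, hv⟩ : N)) (by
      rw [mem_sphere_zero_iff_norm, norm_smul, norm_inv, norm_norm]
      exact inv_mul_cancel₀ hvn)
    simp only [Set.mem_ofPred_eq, Submodule.coe_smul, map_smul, LinearMap.smul_apply, norm_smul,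
      norm_inv, norm_norm] at h1
    have h2 : (‖v‖⁻¹ * (‖v‖⁻¹ * ‖β v v‖)) ^ 2 * (‖v‖ ^ 2) ^ 2 = ‖β v v‖ ^ 2 := by
      field_simp
    rw [← h2]
    exact mul_le_mul_of_nonneg_right h1 (by positivity)
  have hsecond : ∀ y : V, y ∈ N → inner ℝ (x : V) y = 0 →
      inner ℝ a (β x y) = 0 ∧ ‖a‖ ^ 2 * ‖y‖ ^ 2 ≤ 3 * ‖β x y‖ ^ 2 := by
    intro y hy hxy
    set b := β (x : V) y with hb
    set d := β y y with hd
    have hpoly : ∀ t : ℝ, 0 ≤ (4 * inner ℝ a b) * t +
        (4 * ‖b‖ ^ 2 + 2 * inner ℝ a d - 2 * ‖a‖ ^ 2 * ‖y‖ ^ 2) * t ^ 2 +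
        (4 * inner ℝ b d) * t ^ 3 + (‖d‖ ^ 2 - ‖a‖ ^ 2 * (‖y‖ ^ 2) ^ 2) * t ^ 4 := by
      intro t
      have h1 := hhom (x + t • y) (N.add_mem x.2 (N.smul_mem t hy))
      have h2 : β (x + t • y) (x + t • y) = a + ((2 * t) • b + (t ^ 2) • d) := by
        simp only [map_add, map_smul, LinearMap.add_apply, LinearMap.smul_apply]
        rw [hs y x, ← hb, ← ha, ← hd]
        module
      have h3 : ‖(x : V) + t • y‖ ^ 2 = 1 + t ^ 2 * ‖y‖ ^ 2 := by
        rw [norm_add_sq_real, inner_smul_right, hxy, hxn, norm_smul, mul_pow, Real.norm_eq_abs,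
          sq_abs]
        ring
      have h4 : ‖a + ((2 * t) • b + (t ^ 2) • d)‖ ^ 2 = ‖a‖ ^ 2 + 4 * t * inner ℝ a b +
          t ^ 2 * (4 * ‖b‖ ^ 2 + 2 * inner ℝ a d) + 4 * t ^ 3 * inner ℝ b d + t ^ 4 * ‖d‖ ^ 2 := by
        rw [norm_add_sq_real, norm_add_sq_real, inner_add_right]
        simp only [inner_smul_right, inner_smul_left, norm_smul, mul_pow, Real.norm_eq_abs,
          sq_abs, conj_trivial]
        ring
      rw [h2, h3, h4] at h1
      nlinarith [h1]
    obtain ⟨h1, h2⟩ := poly_nonneg hpoly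
    refine ⟨by linarith, ?_⟩
    have h3 := hK (x : V) y
    simp only [gaussT] at h3
    rw [hs y x, ← hb, ← ha, ← hd, real_inner_self_eq_norm_sq] at h3
    nlinarith [h2, h3]
  have hinj : ∀ y : V, y ∈ N → β (x : V) y = 0 → y = 0 := by
    intro y hy hy0
    set s := inner ℝ (x : V) y with hsd
    have h1 : inner ℝ (x : V) (y - s • (x : V)) = 0 := by
      rw [inner_sub_right, inner_smul_right, real_inner_self_eq_norm_sq, hxn]
      ring
    obtain ⟨h2, h3⟩ := hsecond (y - s • (x : V)) (N.sub_mem hy (N.smul_mem s x.2)) h1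
    have h4 : β (x : V) (y - s • (x : V)) = -(s • a) := by
      rw [map_sub, map_smul, hy0, zero_sub]
    rw [h4, inner_neg_right, inner_smul_right, real_inner_self_eq_norm_sq] at h2
    have ha2 : 0 < ‖a‖ ^ 2 := by positivity
    have hs0 : s = 0 := by
      have : s * ‖a‖ ^ 2 = 0 := by linarith
      rcases mul_eq_zero.mp this with h | h
      · exact h
      · exact absurd h ha2.ne'
    rw [h4, hs0] at h3
    simp only [zero_smul, neg_zero, norm_zero, sub_zero] at h3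
    have h5 : ‖y‖ ^ 2 ≤ 0 := by
      by_contra h6
      push Not at h6
      nlinarith [mul_pos ha2 h6]
    have h6 : ‖y‖ = 0 := by
      have := sq_nonneg ‖y‖
      exact pow_eq_zero_iff (two_ne_zero) |>.mp (le_antisymm h5 this)
    exact norm_eq_zero.mp h6
  have hlin : Function.Injective (((β (x : V)).domRestrict N).codRestrict Z
      (fun y => hNZ x x.2 y y.2)) := by
    rw [← LinearMap.ker_eq_bot, LinearMap.ker_eq_bot']
    intro y hy
    have h1 : β (x : V) (y : V) = 0 := by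
      exact congrArg Subtype.val hy
    exact Subtype.ext (hinj y y.2 h1)
  have := LinearMap.finrank_le_finrank_of_injective hlin
  omega

/-- **Asymptotic subspaces** of dimension at least `dim V - dim W`. -/
theorem exists_asymptotic [FiniteDimensional ℝ V] [FiniteDimensional ℝ W]
    (β : V →ₗ[ℝ] V →ₗ[ℝ] W) (hs : ∀ x y, β x y = β y x) (hK : ∀ x y, gaussT β x y x y ≤ 0) :
    ∀ (n : ℕ) (N : Submodule ℝ V) (Z : Submodule ℝ W), finrank ℝ N ≤ n →
      (∀ x ∈ N, ∀ y ∈ N, β x y ∈ Z) →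
      ∃ T : Submodule ℝ V, T ≤ N ∧ (∀ x ∈ T, ∀ y ∈ T, β x y = 0) ∧
        finrank ℝ N ≤ finrank ℝ T + finrank ℝ Z := by
  intro n
  induction n with
  | zero =>
    intro N Z hn _
    exact ⟨⊥, bot_le, fun x hx y _ => by rw [(Submodule.mem_bot ℝ).mp hx]; simp, by omega⟩
  | succ n ih =>
    intro N Z hn hNZ
    by_cases hle : finrank ℝ N ≤ finrank ℝ Z
    · exact ⟨⊥, bot_le, fun x hx y _ => by rw [(Submodule.mem_bot ℝ).mp hx]; simp, by omega⟩
    push Not at hle
    obtain ⟨x, hxN, hx0, hxx⟩ := otsuki β hs hK N Z hNZ hle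
    -- kernel and range of `β x` on `N`
    set f := (β x).domRestrict N with hf
    set Nx : Submodule ℝ V := (LinearMap.ker f).map N.subtype with hNx
    have mNx : ∀ y, y ∈ Nx ↔ y ∈ N ∧ β x y = 0 := by
      intro y
      simp only [hNx, Submodule.mem_map, LinearMap.mem_ker, Submodule.subtype_apply, hf,
        LinearMap.domRestrict_apply]
      constructor
      · rintro ⟨z, hz, rfl⟩
        exact ⟨z.2, hz⟩
      · rintro ⟨h1, h2⟩
        exact ⟨⟨y, h1⟩, h2, rfl⟩
    set S : Submodule ℝ W := LinearMap.range f with hS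
    have hSZ : S ≤ Z := by
      rintro _ ⟨y, rfl⟩
      exact hNZ x hxN y y.2
    have hrk : finrank ℝ S + finrank ℝ Nx = finrank ℝ N := by
      have h1 := LinearMap.finrank_range_add_finrank_ker f
      have h2 : finrank ℝ Nx = finrank ℝ (LinearMap.ker f) :=
        Submodule.finrank_map_subtype_eq N (LinearMap.ker f)
      rw [h2, hS]
      exact h1
    set X : Submodule ℝ V := Submodule.span ℝ {x} with hX
    have hXd : finrank ℝ X = 1 := finrank_span_singleton hx0
    have hXN : X ≤ Nx := by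
      rw [hX, Submodule.span_singleton_le_iff_mem, mNx]
      exact ⟨hxN, hxx⟩
    have hN' := Submodule.finrank_add_inf_finrank_orthogonal hXN
    have hZ' := Submodule.finrank_add_inf_finrank_orthogonal hSZ
    have horth : ∀ y ∈ Xᗮ ⊓ Nx, ∀ z ∈ Xᗮ ⊓ Nx, β y z ∈ Sᗮ ⊓ Z := by
      have hdiag : ∀ z ∈ Nx, ∀ v ∈ N, inner ℝ (β x v) (β z z) = 0 := by
        intro z hz v hv
        obtain ⟨hzN, hxz⟩ := (mNx z).mp hz
        have h1 : ∀ t : ℝ, 0 ≤ (-(2 * inner ℝ (β x v) (β z z))) * t +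
            (-(inner ℝ (β v v) (β z z)) + ‖β v z‖ ^ 2) * 1 := by
          intro t
          have h2 := hK (t • x + v) z
          simp only [gaussT, map_add, map_smul, LinearMap.add_apply, LinearMap.smul_apply] at h2
          rw [hs z x, hs z v, hs v x, hxx, hxz] at h2
          simp only [smul_zero, zero_add, inner_add_left, inner_smul_left, conj_trivial] at h2
          rw [real_inner_self_eq_norm_sq] at h2
          nlinarith [h2]
        by_contra h0
        set q := inner ℝ (β x v) (β z z) with hq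
        set r := -(inner ℝ (β v v) (β z z)) + ‖β v z‖ ^ 2 with hr
        have h3 := h1 ((r + 1) / (2 * q))
        have h4 : -(2 * q) * ((r + 1) / (2 * q)) = -(r + 1) := by
          field_simp
        rw [h4] at h3
        linarith
      intro y hy z hz
      have hyN := (mNx y).mp hy.2
      have hzN := (mNx z).mp hz.2
      refine ⟨?_, hNZ y hyN.1 z hzN.1⟩
      rw [SetLike.mem_coe, Submodule.mem_orthogonal]
      rintro _ ⟨v, rfl⟩
      have h1 := hdiag (y + z) (Nx.add_mem hy.2 hz.2) v v.2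
      have h2 := hdiag y hy.2 v v.2
      have h3 := hdiag z hz.2 v v.2
      simp only [map_add, LinearMap.add_apply, inner_add_right] at h1
      rw [hs z y] at h1
      change inner ℝ (β x v) (β y z) = 0
      linarith
    obtain ⟨T', hT'N, hT'0, hT'd⟩ := ih (Xᗮ ⊓ Nx) (Sᗮ ⊓ Z) (by omega) horth
    refine ⟨X ⊔ T', ?_, ?_, ?_⟩
    · refine sup_le (hXN.trans fun y hy => ((mNx y).mp hy).1) fun y hy => ?_
      exact ((mNx y).mp (hT'N hy).2).1
    · intro y hy z hz
      obtain ⟨y₁, hy₁, y₂, hy₂, rfl⟩ := Submodule.mem_sup.mp hy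
      obtain ⟨z₁, hz₁, z₂, hz₂, rfl⟩ := Submodule.mem_sup.mp hz
      obtain ⟨c, rfl⟩ := Submodule.mem_span_singleton.mp hy₁
      obtain ⟨d, rfl⟩ := Submodule.mem_span_singleton.mp hz₁
      have h1 := ((mNx _).mp (hT'N hy₂).2).2
      have h2 := ((mNx _).mp (hT'N hz₂).2).2
      have h3 := hT'0 _ hy₂ _ hz₂
      simp only [map_add, map_smul, LinearMap.add_apply, LinearMap.smul_apply]
      rw [hxx, h2, hs y₂ x, h1, h3]
      simp
    · have h1 : X ⊓ T' = ⊥ := by
        rw [eq_bot_iff]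
        intro y hy
        have h2 : y ∈ Xᗮ := (hT'N hy.2).1
        have h3 : y ∈ X ⊓ Xᗮ := ⟨hy.1, h2⟩
        rw [Submodule.inf_orthogonal_eq_bot] at h3
        exact h3
      have h2 := Submodule.finrank_sup_add_finrank_inf_eq X T'
      rw [h1, finrank_bot] at h2
      omega

end Pool.Agent.TH420.HS
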