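import Pool.Agent.TH420.HS.Pos
import Pool.Agent.W666.GB.Lift

/-!
# Positivity of the Gauss–Bonnet–Chern sum of symmetric forms with a common isotropic half
-/

set_option autoImplicit false

namespace Pool.Agent.TH420.HS

open Finset Pool.Agent.W666.GB

variable {m : ℕ} {ι : Type} [Fintype ι] [DecidableEq ι]

/-- first form of the sum -/
theorem Yf_expand (H : ι → Fin m × Bool → Fin m × Bool → ℝ) :
    Yf (fun i k j l => ∑ a, H a i k * H a j l) =
      ∑ α : Fin m → ι, ∑ π : Equiv.Perm (Fin m × Bool), ∑ π' : Equiv.Perm (Fin m × Bool),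
        sn π * sn π' * ∏ j : Fin m × Bool, H (α j.1) (π j) (π' j) := by
  unfold Yf
  symm
  rw [Finset.sum_comm]
  refine Finset.sum_congr rfl fun π _ => ?_
  rw [Finset.sum_comm]
  refine Finset.sum_congr rfl fun π' _ => ?_
  rw [← Finset.mul_sum]
  congr 1
  rw [Fintype.prod_sum]
  refine Finset.sum_congr rfl fun α _ => ?_
  rw [Fintype.prod_prod_type]
  refine Finset.prod_congr rfl fun b _ => ?_
  rw [Fintype.prod_bool, mul_comm]

theorem det_row {X : Type} [Fintype X] [DecidableEq X] (N : Matrix X X ℝ) :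
    N.det = ∑ ρ : Equiv.Perm X, sn ρ * ∏ k, N k (ρ k) := by
  rw [← Matrix.det_transpose, Matrix.det_apply']
  rfl

theorem perm_sum_det (G : Fin m × Bool → Fin m × Bool → Fin m × Bool → ℝ) :
    ∑ π : Equiv.Perm (Fin m × Bool), ∑ π' : Equiv.Perm (Fin m × Bool),
        sn π * sn π' * ∏ j : Fin m × Bool, G j (π j) (π' j) =
      ∑ θ : Equiv.Perm (Fin m × Bool), (Matrix.of fun k l => G (θ k) k l).det := by
  rw [← Equiv.sum_comp (Equiv.inv (Equiv.Perm (Fin m × Bool)))
    (fun θ => (Matrix.of fun k l => G (θ k) k l).det)]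
  refine Finset.sum_congr rfl fun π _ => ?_
  rw [det_row, ← Equiv.sum_comp (Equiv.mulRight π)]
  refine Finset.sum_congr rfl fun ρ _ => ?_
  simp only [Equiv.coe_mulRight, sn_mul, Equiv.Perm.mul_apply, Equiv.inv_apply, Matrix.of_apply]
  have h1 : sn π * (sn ρ * sn π) = sn ρ := by
    rw [mul_comm (sn ρ), ← mul_assoc, sn_mul_self, one_mul]
  rw [h1]
  congr 1
  refine Eq.trans ?_ (Equiv.prod_comp π (fun k => G (π⁻¹ k) k (ρ k)))
  refine Finset.prod_congr rfl fun j _ => ?_
  simp

/-- the splitting of the index set -/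
def spl : Fin m ⊕ Fin m ≃ Fin m × Bool where
  toFun := Sum.elim (fun b => (b, false)) (fun b => (b, true))
  invFun := fun p => if p.2 then Sum.inr p.1 else Sum.inl p.1
  left_inv := by rintro (b | b) <;> simp
  right_inv := by rintro ⟨b, β⟩; cases β <;> simp

theorem block_det (N : Matrix (Fin m × Bool) (Fin m × Bool) ℝ)
    (h0 : ∀ b c, N (b, false) (c, false) = 0) :
    N.det = (-1) ^ m * ((Matrix.of fun b c : Fin m => N (b, false) (c, true)).det *
      (Matrix.of fun b c : Fin m => N (b, true) (c, false)).det) := by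
  have h1 : (N.submatrix id (bs (fun _ : Fin m => true))).det = (-1) ^ m * N.det := by
    rw [Matrix.det_permute']
    congr 1
    have := sn_bs (fun _ : Fin m => true)
    simp only [if_true, Finset.prod_const, Finset.card_univ, Fintype.card_fin] at this
    exact this
  have h2 : ((N.submatrix id (bs (fun _ : Fin m => true))).submatrix spl spl) =
      Matrix.fromBlocks (Matrix.of fun b c : Fin m => N (b, false) (c, true)) 0
        (Matrix.of fun b c : Fin m => N (b, true) (c, true))
        (Matrix.of fun b c : Fin m => N (b, true) (c, false)) := by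
    ext i j
    rcases i with b | b <;> rcases j with c | c <;> simp [spl, bs, h0]
  have h3 : (N.submatrix id (bs (fun _ : Fin m => true))).det =
      (Matrix.of fun b c : Fin m => N (b, false) (c, true)).det *
      (Matrix.of fun b c : Fin m => N (b, true) (c, false)).det := by
    rw [← Matrix.det_submatrix_equiv_self spl, h2, Matrix.det_fromBlocks_zero₁₂]
  have h4 : ((-1 : ℝ) ^ m) * (-1) ^ m = 1 := by
    rw [← mul_pow]; norm_num
  rw [← h3, h1, ← mul_assoc, h4, one_mul]

/-- symmetrized mixed discriminant -/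
noncomputable def DD (M : ι → Fin m → Fin m → ℝ) (c : Fin m → ι) : ℝ :=
  ∑ s : Equiv.Perm (Fin m), (Matrix.of fun b k : Fin m => M (c (s b)) b k).det

theorem DD_symm (M : ι → Fin m → Fin m → ℝ) (s : Equiv.Perm (Fin m)) (c : Fin m → ι) :
    DD M (c ∘ s) = DD M c := by
  unfold DD
  rw [← Equiv.sum_comp (Equiv.mulLeft s) (fun s' : Equiv.Perm (Fin m) =>
    (Matrix.of fun b k : Fin m => M (c (s' b)) b k).det)]
  rfl

theorem DD_col (M : ι → Fin m → Fin m → ℝ) (c : Fin m → ι) :
    ∑ s : Equiv.Perm (Fin m), (Matrix.of fun b k : Fin m => M (c (s b)) k b).det = DD M c := by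
  unfold DD
  simp only [det_row, Matrix.of_apply]
  rw [Finset.sum_comm]
  conv_rhs => rw [Finset.sum_comm]
  rw [← Equiv.sum_comp (Equiv.inv (Equiv.Perm (Fin m)))]
  refine Finset.sum_congr rfl fun τ _ => ?_
  rw [← Equiv.sum_comp (Equiv.mulRight τ⁻¹)]
  refine Finset.sum_congr rfl fun s _ => ?_
  simp only [Equiv.inv_apply, sn_inv, Equiv.coe_mulRight, Equiv.Perm.mul_apply]
  congr 1
  refine (Equiv.prod_comp τ _).symm.trans ?_
  refine Finset.prod_congr rfl fun b _ => ?_
  simp

/-- permutations of the two halves -/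
def two (s t : Equiv.Perm (Fin m)) : Equiv.Perm (Fin m × Bool) :=
  Equiv.prodCongrLeft fun β : Bool => if β then t else s

theorem two_false (s t : Equiv.Perm (Fin m)) (b : Fin m) : two s t (b, false) = (s b, false) := by
  simp [two]

theorem two_true (s t : Equiv.Perm (Fin m)) (b : Fin m) : two s t (b, true) = (t b, true) := by
  simp [two]

/-- The sum as a sum of contractions of the symmetric tensor `DD`. -/
theorem Yf_contract (H : ι → Fin m × Bool → Fin m × Bool → ℝ)
    (hs : ∀ a i j, H a i j = H a j i) (h0 : ∀ a b c, H a (b, false) (c, false) = 0) :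
    (m.factorial : ℝ) ^ 2 * ((-1) ^ m * Yf (fun i k j l => ∑ a, H a i k * H a j l)) =
      ∑ α : Fin m → ι, ∑ θ : Equiv.Perm (Fin m × Bool),
        DD (fun a b k => H a (b, false) (k, true)) (α ∘ fun b => (θ (b, false)).1) *
        DD (fun a b k => H a (b, false) (k, true)) (α ∘ fun b => (θ (b, true)).1) := by
  set M : ι → Fin m → Fin m → ℝ := fun a b k => H a (b, false) (k, true) with hM
  have hm : ((-1 : ℝ) ^ m) * (-1) ^ m = 1 := by rw [← mul_pow]; norm_num
  have h1 : (-1) ^ m * Yf (fun i k j l => ∑ a, H a i k * H a j l) =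
      ∑ α : Fin m → ι, ∑ θ : Equiv.Perm (Fin m × Bool),
        (Matrix.of fun b k : Fin m => M (α (θ (b, false)).1) b k).det *
        (Matrix.of fun b k : Fin m => M (α (θ (b, true)).1) k b).det := by
    rw [Yf_expand, Finset.mul_sum]
    refine Finset.sum_congr rfl fun α _ => ?_
    rw [perm_sum_det (fun j k l => H (α j.1) k l), Finset.mul_sum]
    refine Finset.sum_congr rfl fun θ _ => ?_
    rw [block_det _ (fun b c => by simp only [Matrix.of_apply]; exact h0 _ _ _), ← mul_assoc, hm,
      one_mul]
    congr 1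
    congr 1
    ext b c
    simp only [Matrix.of_apply, hM]
    exact hs _ _ _
  rw [h1, Finset.mul_sum]
  refine Finset.sum_congr rfl fun α _ => ?_
  have h2 : ∀ s t : Equiv.Perm (Fin m), ∑ θ : Equiv.Perm (Fin m × Bool),
        (Matrix.of fun b k : Fin m => M (α (θ (b, false)).1) b k).det *
        (Matrix.of fun b k : Fin m => M (α (θ (b, true)).1) k b).det =
      ∑ θ : Equiv.Perm (Fin m × Bool),
        (Matrix.of fun b k : Fin m => M (α (θ (s b, false)).1) b k).det *
        (Matrix.of fun b k : Fin m => M (α (θ (t b, true)).1) k b).det := by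
    intro s t
    rw [← Equiv.sum_comp (Equiv.mulRight (two s t))]
    refine Finset.sum_congr rfl fun θ _ => ?_
    simp only [Equiv.coe_mulRight, Equiv.Perm.mul_apply, two_false, two_true]
  have h3 : (m.factorial : ℝ) ^ 2 * ∑ θ : Equiv.Perm (Fin m × Bool),
        (Matrix.of fun b k : Fin m => M (α (θ (b, false)).1) b k).det *
        (Matrix.of fun b k : Fin m => M (α (θ (b, true)).1) k b).det =
      ∑ s : Equiv.Perm (Fin m), ∑ t : Equiv.Perm (Fin m), ∑ θ : Equiv.Perm (Fin m × Bool),
        (Matrix.of fun b k : Fin m => M (α (θ (s b, false)).1) b k).det *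
        (Matrix.of fun b k : Fin m => M (α (θ (t b, true)).1) k b).det := by
    simp only [← h2, Finset.sum_const, Finset.card_univ, Fintype.card_perm, Fintype.card_fin,
      nsmul_eq_mul]
    ring
  rw [h3, Finset.sum_congr rfl fun s _ => Finset.sum_comm, Finset.sum_comm]
  refine Finset.sum_congr rfl fun θ _ => ?_
  rw [← DD_col M (α ∘ fun b => (θ (b, true)).1)]
  unfold DD
  rw [Finset.sum_mul_sum]
  rfl

theorem fiber_two (θ : Equiv.Perm (Fin m × Bool)) (b : Fin m) :
    (univ.filter fun x => (θ (x, false)).1 = b).card +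
      (univ.filter fun x => (θ (x, true)).1 = b).card = 2 := by
  classical
  have h1 : (univ.filter fun j : Fin m × Bool => (θ j).1 = b).card = 2 := by
    have h2 : (univ.filter fun j : Fin m × Bool => (θ j).1 = b) =
        ({(b, false), (b, true)} : Finset (Fin m × Bool)).map θ.symm.toEmbedding := by
      ext j
      simp only [Finset.mem_filter, Finset.mem_univ, true_and, Finset.mem_map_equiv,
        Equiv.symm_symm, Finset.mem_insert, Finset.mem_singleton]
      constructor
      · intro h
        rcases hj : θ j with ⟨x, β⟩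
        rw [hj] at h
        cases β <;> simp_all
      · rintro (h | h) <;> rw [h]
    rw [h2, Finset.card_map, Finset.card_pair (by simp)]
  rw [← h1, Finset.card_filter, Finset.card_filter, Finset.card_filter, Fintype.sum_prod_type,
    ← Finset.sum_add_distrib]
  refine Finset.sum_congr rfl fun x _ => ?_
  rw [Fintype.sum_bool, add_comm]

/-- **Positivity.** -/
theorem Yf_nonneg (H : ι → Fin m × Bool → Fin m × Bool → ℝ)
    (hs : ∀ a i j, H a i j = H a j i) (h0 : ∀ a b c, H a (b, false) (c, false) = 0) :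
    0 ≤ (-1) ^ m * Yf (fun i k j l => ∑ a, H a i k * H a j l) := by
  have h1 := Yf_contract H hs h0
  have h2 : 0 ≤ (m.factorial : ℝ) ^ 2 *
      ((-1) ^ m * Yf (fun i k j l => ∑ a, H a i k * H a j l)) := by
    rw [h1, Finset.sum_comm]
    refine Finset.sum_nonneg fun θ _ => ?_
    exact contraction_nonneg _ _ (fiber_two θ) _ (fun s c => DD_symm _ s c)
  have h3 : (0 : ℝ) < (m.factorial : ℝ) ^ 2 := by positivity
  exact nonneg_of_mul_nonneg_right h2 h3

/-- **Strict positivity** if one of the forms `∑ a, ν a * H a` is nondegenerate. -/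
theorem Yf_pos (H : ι → Fin m × Bool → Fin m × Bool → ℝ)
    (hs : ∀ a i j, H a i j = H a j i) (h0 : ∀ a b c, H a (b, false) (c, false) = 0)
    (ν : ι → ℝ) (hν : (Matrix.of fun b k : Fin m => ∑ a, ν a * H a (b, false) (k, true)).det ≠ 0) :
    0 < (-1) ^ m * Yf (fun i k j l => ∑ a, H a i k * H a j l) := by
  have h1 := Yf_contract H hs h0
  set M : ι → Fin m → Fin m → ℝ := fun a b k => H a (b, false) (k, true) with hM
  have h4 : ∃ c, DD M c ≠ 0 := by
    by_contra hc
    push Not at hc
    apply hν
    have h5 : ∑ c : Fin m → ι, (∏ b, ν (c b)) * DD M c = (m.factorial : ℝ) *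
        (Matrix.of fun b k : Fin m => ∑ a, ν a * H a (b, false) (k, true)).det := by
      unfold DD
      simp only [Finset.mul_sum]
      rw [Finset.sum_comm]
      have h6 : ∀ s : Equiv.Perm (Fin m), ∑ c : Fin m → ι, (∏ b, ν (c b)) *
          (Matrix.of fun b k : Fin m => M (c (s b)) b k).det =
          (Matrix.of fun b k : Fin m => ∑ a, ν a * H a (b, false) (k, true)).det := by
        intro s
        rw [← Equiv.sum_comp (Equiv.arrowCongr s (Equiv.refl ι)) (fun c : Fin m → ι =>
          (∏ b, ν (c b)) * (Matrix.of fun b k : Fin m => M (c (s b)) b k).det)]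
        simp only [det_row, Matrix.of_apply, Finset.mul_sum]
        rw [Finset.sum_comm]
        refine Finset.sum_congr rfl fun τ _ => ?_
        rw [Fintype.prod_sum, Finset.mul_sum]
        refine Finset.sum_congr rfl fun c _ => ?_
        have h7 : ∏ b, ν ((Equiv.arrowCongr s (Equiv.refl ι)) c b) = ∏ b, ν (c b) := by
          rw [← Equiv.prod_comp s]
          refine Finset.prod_congr rfl fun b _ => ?_
          simp [Equiv.arrowCongr]
        rw [h7, Finset.prod_mul_distrib]
        have h8 : ∀ b, (Equiv.arrowCongr s (Equiv.refl ι)) c (s b) = c b := by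
          intro b; simp [Equiv.arrowCongr]
        simp only [h8, hM]
        ring
      simp only [h6, Finset.sum_const, Finset.card_univ, Fintype.card_perm, Fintype.card_fin,
        nsmul_eq_mul]
    simp only [hc, mul_zero, Finset.sum_const_zero] at h5
    have h6 : (m.factorial : ℝ) ≠ 0 := by positivity
    rcases mul_eq_zero.mp h5.symm with h7 | h7
    · exact absurd h7 h6
    · exact h7
  obtain ⟨c₀, hc₀⟩ := h4
  have h2 : 0 < (m.factorial : ℝ) ^ 2 *
      ((-1) ^ m * Yf (fun i k j l => ∑ a, H a i k * H a j l)) := by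
    rw [h1, Finset.sum_comm]
    refine Finset.sum_pos' (fun θ _ => ?_) ⟨1, Finset.mem_univ _, ?_⟩
    · exact contraction_nonneg _ _ (fiber_two θ) _ (fun s c => DD_symm _ s c)
    · refine Finset.sum_pos' (fun α _ => ?_) ⟨c₀, Finset.mem_univ _, ?_⟩
      · exact mul_self_nonneg _
      · exact mul_self_pos.mpr hc₀
  have h3 : (0 : ℝ) < (m.factorial : ℝ) ^ 2 := by positivity
  exact pos_of_mul_pos_right h2 h3.le

/-- **Vanishing** if more than half of the basis is isotropic. -/
theorem Yf_zero (H : ι → Fin m × Bool → Fin m × Bool → ℝ) (b₀ : Fin m)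
    (h0 : ∀ a b c, H a (b, false) (c, false) = 0)
    (h1 : ∀ a c, H a (b₀, true) (c, false) = 0) (h1' : ∀ a c, H a (c, false) (b₀, true) = 0)
    (h2 : ∀ a, H a (b₀, true) (b₀, true) = 0) :
    Yf (fun i k j l => ∑ a, H a i k * H a j l) = 0 := by
  rw [Yf_expand]
  refine Finset.sum_eq_zero fun α _ => ?_
  rw [perm_sum_det (fun j k l => H (α j.1) k l)]
  refine Finset.sum_eq_zero fun θ _ => ?_
  rw [block_det _ (fun b c => by simp only [Matrix.of_apply]; exact h0 _ _ _)]
  have h3 : (Matrix.of fun b c : Fin m => (Matrix.of fun k l => H (α (θ k).1) k l)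
      (b, false) (c, true)).det = 0 := by
    refine Matrix.det_eq_zero_of_column_eq_zero b₀ fun b => ?_
    simp only [Matrix.of_apply]
    exact h1' _ _
  rw [h3, zero_mul, mul_zero]

end Pool.Agent.TH420.HS
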