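import Pool.Agent.TH420.HS.Main

/-!
# The case of equality
-/

set_option autoImplicit false

namespace Pool.Agent.TH420.HS

open Module Finset Pool.Agent.W666.GB

variable {m : ℕ} {ι : Type} [Fintype ι] [DecidableEq ι]

theorem DD_sum (M : ι → Fin m → Fin m → ℝ) (ν : ι → ℝ) :
    ∑ c : Fin m → ι, (∏ b, ν (c b)) * DD M c = (m.factorial : ℝ) *
      (Matrix.of fun b k : Fin m => ∑ a, ν a * M a b k).det := by
  unfold DD
  simp only [Finset.mul_sum]
  rw [Finset.sum_comm]
  have h6 : ∀ s : Equiv.Perm (Fin m), ∑ c : Fin m → ι, (∏ b, ν (c b)) *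
      (Matrix.of fun b k : Fin m => M (c (s b)) b k).det =
      (Matrix.of fun b k : Fin m => ∑ a, ν a * M a b k).det := by
    intro s
    rw [← Equiv.sum_comp (Equiv.arrowCongr s (Equiv.refl ι)) (fun c : Fin m → ι =>
      (∏ b, ν (c b)) * (Matrix.of fun b k : Fin m => M (c (s b)) b k).det)]
    simp only [det_row, Matrix.of_apply, Finset.mul_sum]
    rw [Finset.sum_comm]
    refine Finset.sum_congr rfl fun τ _ => ?_
    rw [Fintype.prod_sum, Finset.mul_sum]
    refine Finset.sum_congr rfl fun c _ => ?_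
    have h7 : ∏ b, ν ((Equiv.arrowCongr s (Equiv.refl ι)) c b) = ∏ b, ν (c b) := by
      rw [← Equiv.prod_comp s]
      refine Finset.prod_congr rfl fun b _ => ?_
      simp [Equiv.arrowCongr]
    rw [h7, Finset.prod_mul_distrib]
    have h8 : ∀ b, (Equiv.arrowCongr s (Equiv.refl ι)) c (s b) = c b := by
      intro b; simp [Equiv.arrowCongr]
    simp only [h8]
    ring
  simp only [h6, Finset.sum_const, Finset.card_univ, Fintype.card_perm, Fintype.card_fin,
    nsmul_eq_mul]

/-- a symmetric tensor is determined by its polynomial -/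
theorem DD_eq_zero (M : ι → Fin m → Fin m → ℝ)
    (h : ∀ ν : ι → ℝ, (Matrix.of fun b k : Fin m => ∑ a, ν a * M a b k).det = 0) (c : Fin m → ι) :
    DD M c = 0 := by
  classical
  set p : MvPolynomial ι ℝ := ∑ c : Fin m → ι,
    MvPolynomial.C (DD M c) * ∏ b, MvPolynomial.X (c b) with hp
  have hp0 : p = 0 := by
    apply MvPolynomial.funext
    intro ν
    rw [map_zero, hp, map_sum, ← mul_zero (m.factorial : ℝ), ← h ν, ← DD_sum]
    refine Finset.sum_congr rfl fun c _ => ?_
    rw [map_mul, map_prod, MvPolynomial.eval_C, mul_comm]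
    simp only [MvPolynomial.eval_X]
  have hmon : ∀ c : Fin m → ι, (∏ b, MvPolynomial.X (c b) : MvPolynomial ι ℝ) =
      MvPolynomial.monomial (∑ b, Finsupp.single (c b) 1) 1 := by
    intro c
    rw [MvPolynomial.monomial_sum_one]
    rfl
  have hval : ∀ (c : Fin m → ι) (i : ι), (∑ b, Finsupp.single (c b) 1 : ι →₀ ℕ) i =
      (univ.filter fun b => c b = i).card := by
    intro c i
    rw [Finsupp.finset_sum_apply, Finset.card_filter]
    refine Finset.sum_congr rfl fun b _ => ?_
    rw [Finsupp.single_apply]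
  have hco := congrArg (MvPolynomial.coeff (∑ b, Finsupp.single (c b) 1 : ι →₀ ℕ)) hp0
  rw [hp, MvPolynomial.coeff_sum, MvPolynomial.coeff_zero] at hco
  have hterm : ∀ c' : Fin m → ι, MvPolynomial.coeff (∑ b, Finsupp.single (c b) 1 : ι →₀ ℕ)
      (MvPolynomial.C (DD M c') * ∏ b, MvPolynomial.X (c' b)) =
      if (∑ b, Finsupp.single (c' b) 1 : ι →₀ ℕ) = ∑ b, Finsupp.single (c b) 1
        then DD M c else 0 := by
    intro c'
    rw [hmon, MvPolynomial.coeff_C_mul, MvPolynomial.coeff_monomial]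
    split_ifs with h1
    · rw [mul_one]
      obtain ⟨s, hs⟩ := exists_perm_of_fiber c' c (fun i => by rw [← hval, ← hval, h1])
      have h2 : c = c' ∘ s := by
        funext x; rw [hs x]; rfl
      rw [h2, DD_symm]
    · rw [mul_zero]
  rw [Finset.sum_congr rfl fun c' _ => hterm c', ← Finset.sum_filter, Finset.sum_const,
    nsmul_eq_mul] at hco
  rcases mul_eq_zero.mp hco with h1 | h1
  · exfalso
    have h2 : c ∈ univ.filter fun c' : Fin m → ι =>
        (∑ b, Finsupp.single (c' b) 1 : ι →₀ ℕ) = ∑ b, Finsupp.single (c b) 1 := by simp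
    have h3 := Finset.card_pos.mpr ⟨c, h2⟩
    have h4 : (univ.filter fun c' : Fin m → ι =>
        (∑ b, Finsupp.single (c' b) 1 : ι →₀ ℕ) = ∑ b, Finsupp.single (c b) 1).card = 0 := by
      exact_mod_cast h1
    omega
  · exact h1

theorem Yf_eq_zero (H : ι → Fin m × Bool → Fin m × Bool → ℝ)
    (hs : ∀ a i j, H a i j = H a j i) (h0 : ∀ a b c, H a (b, false) (c, false) = 0)
    (h : ∀ ν : ι → ℝ,
      (Matrix.of fun b k : Fin m => ∑ a, ν a * H a (b, false) (k, true)).det = 0) :
    Yf (fun i k j l => ∑ a, H a i k * H a j l) = 0 := by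
  have h1 := Yf_contract H hs h0
  have h2 := DD_eq_zero (fun a b k => H a (b, false) (k, true)) h
  simp only [h2, mul_zero, Finset.sum_const_zero] at h1
  have h3 : (m.factorial : ℝ) ^ 2 ≠ 0 := by positivity
  rcases mul_eq_zero.mp h1 with h4 | h4
  · exact absurd h4 h3
  · rcases mul_eq_zero.mp h4 with h5 | h5
    · exact absurd h5 (pow_ne_zero _ (by norm_num))
    · exact h5

variable {V W : Type} [NormedAddCommGroup V] [InnerProductSpace ℝ V]
  [NormedAddCommGroup W] [InnerProductSpace ℝ W]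

/-- The integrand vanishes if all the forms `⟨β, ν⟩` are degenerate. -/
theorem zero_of_degenerate [FiniteDimensional ℝ W] (e : OrthonormalBasis (Fin m × Bool) ℝ V)
    (β : V →ₗ[ℝ] V →ₗ[ℝ] W) (hs : ∀ x y, β x y = β y x) (T : Submodule ℝ V)
    (hT : ∀ x ∈ T, ∀ y ∈ T, β x y = 0) (hd : m ≤ finrank ℝ T)
    (hdeg : ∀ ν : W, ∃ x : V, x ≠ 0 ∧ ∀ y : V, inner ℝ (β x y) ν = 0) :
    gbc e (gaussT β) = 0 := by
  classical
  set w := stdOrthonormalBasis ℝ W with hw
  have hcard : (univ.filter fun j : Fin m × Bool => j.2 = false).card = m := by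
    rw [Finset.card_filter, Fintype.sum_prod_type]
    simp
  obtain ⟨e', he'⟩ := adapted e T (univ.filter fun j : Fin m × Bool => j.2 = false)
      (by rw [hcard]; exact hd)
  have heT : ∀ b, e' (b, false) ∈ T := fun b => he' _ (by simp)
  rw [Pool.Agent.W688.HD.bas m V e e' _ (gaussT_curv β hs), gbc_gauss,
    Yf_eq_zero (m := m) (fun (a : Fin (finrank ℝ W)) i k => inner ℝ (β (e' i) (e' k)) (w a))
      (fun a i j => by rw [hs])
      (fun a b c => by rw [hT _ (heT b) _ (heT c), inner_zero_left]), mul_zero, mul_zero]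
  intro c
  set ν : W := ∑ a, c a • w a with hν
  have hwν : ∀ z : W, inner ℝ z ν = ∑ a, c a * inner ℝ z (w a) := by
    intro z
    rw [hν, inner_sum]
    exact Finset.sum_congr rfl fun a _ => by rw [inner_smul_right]
  obtain ⟨x, hx0, hx⟩ := hdeg ν
  set N : Matrix (Fin m × Bool) (Fin m × Bool) ℝ :=
    Matrix.of fun i j => inner ℝ (β (e' i) (e' j)) ν with hN
  have hNdet : N.det = 0 := by
    rw [← Matrix.exists_vecMul_eq_zero_iff]
    refine ⟨fun i => inner ℝ (e' i) x, ?_, ?_⟩
    · intro h1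
      apply hx0
      rw [← e'.sum_repr' x]
      refine Finset.sum_eq_zero fun i _ => ?_
      have := congrFun h1 i
      simp only [Pi.zero_apply] at this
      rw [this, zero_smul]
    · funext j
      simp only [Matrix.vecMul, dotProduct, hN, Matrix.of_apply, Pi.zero_apply]
      rw [← hx (e' j)]
      conv_rhs => rw [← e'.sum_repr' x, map_sum, LinearMap.sum_apply, sum_inner]
      refine Finset.sum_congr rfl fun i _ => ?_
      rw [map_smul, LinearMap.smul_apply, inner_smul_left]
      rfl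
  have h1 := block_det N (fun b c => by
    simp only [hN, Matrix.of_apply]
    rw [hT _ (heT b) _ (heT c), inner_zero_left])
  rw [hNdet] at h1
  have h2 : (Matrix.of fun b c : Fin m => N (b, true) (c, false)).det =
      (Matrix.of fun b c : Fin m => N (b, false) (c, true)).det := by
    rw [← Matrix.det_transpose]
    congr 1
    ext b c
    simp only [Matrix.transpose_apply, Matrix.of_apply, hN]
    rw [hs]
  rw [h2] at h1
  have h3 : (Matrix.of fun b c : Fin m => N (b, false) (c, true)).det = 0 := by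
    rcases mul_eq_zero.mp h1.symm with h4 | h4
    · exact absurd h4 (pow_ne_zero _ (by norm_num))
    · rcases mul_eq_zero.mp h4 with h5 | h5 <;> exact h5
  rw [← h3]
  congr 1
  ext b k
  simp only [Matrix.of_apply, hN]
  rw [hwν]

/-- **The Hopf sign in codimension at most `m`, with the case of equality.** -/
theorem low_codimension_iff [FiniteDimensional ℝ W] (e : OrthonormalBasis (Fin m × Bool) ℝ V)
    (β : V →ₗ[ℝ] V →ₗ[ℝ] W) (hs : ∀ x y, β x y = β y x) (hK : ∀ x y, gaussT β x y x y ≤ 0)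
    (hd : finrank ℝ W ≤ m) :
    0 ≤ (-1) ^ m * gbc e (gaussT β) ∧
      (gbc e (gaussT β) = 0 ↔ ∀ ν : W, ∃ x : V, x ≠ 0 ∧ ∀ y : V, inner ℝ (β x y) ν = 0) ∧
      (finrank ℝ W < m → gbc e (gaussT β) = 0) := by
  have : FiniteDimensional ℝ V := Module.Finite.of_basis e.toBasis
  have hV : finrank ℝ V = 2 * m := by
    rw [finrank_eq_card_basis e.toBasis]
    simp [mul_comm]
  obtain ⟨T, -, hT, hTd⟩ := exists_asymptotic β hs hK (2 * m) ⊤ ⊤ (by rw [finrank_top, hV])
    (fun _ _ _ _ => Submodule.mem_top)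
  rw [finrank_top, finrank_top, hV] at hTd
  obtain ⟨h1, h2, h3⟩ := sign_of_asymptotic e β hs T hT (by omega)
  refine ⟨h1, ⟨fun h0 => ?_, fun h0 => zero_of_degenerate e β hs T hT (by omega) h0⟩,
    fun h => h2 (by omega)⟩
  by_contra hc
  push Not at hc
  obtain ⟨ν, hν⟩ := hc
  have h4 := h3 ⟨ν, fun x hx => by
    by_contra hx0
    obtain ⟨y, hy⟩ := hν x hx0
    exact hy (hx y)⟩
  rw [h0, mul_zero] at h4
  exact lt_irrefl _ h4

end Pool.Agent.TH420.HS
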