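import Pool.Agent.TH420.HS.Core
import Pool.Agent.TH420.HS.Asym
import Pool.Agent.W688.HD.BAS

/-!
# The Hopf sign for second fundamental forms with a half dimensional asymptotic subspace
-/

set_option autoImplicit false

namespace Pool.Agent.TH420.HS

open Module Finset Pool.Agent.W666.GB

variable {V W : Type} [NormedAddCommGroup V] [InnerProductSpace ℝ V]
  [NormedAddCommGroup W] [InnerProductSpace ℝ W]

theorem gaussT_curv (β : V →ₗ[ℝ] V →ₗ[ℝ] W) (hs : ∀ x y, β x y = β y x) :
    AlgCurv (gaussT β) where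
  add x x' y z w := by
    simp only [gaussT, map_add, LinearMap.add_apply, inner_add_left]; ring
  smul t x y z w := by
    simp only [gaussT, map_smul, LinearMap.smul_apply, inner_smul_left, conj_trivial]; ring
  anti x y z w := by
    simp only [gaussT]
    rw [real_inner_comm (β x w), real_inner_comm (β x z)]; ring
  pair x y z w := by
    simp only [gaussT]
    rw [hs z x, hs w y, hs z y, hs w x, real_inner_comm (β x w)]
  bianchi x y z w := by
    simp only [gaussT]
    rw [hs z x, hs y x, hs z y, real_inner_comm (β x y), real_inner_comm (β x z),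
      real_inner_comm (β x w)]
    ring

/-- an orthonormal basis with prescribed elements in `T` -/
theorem adapted {J : Type} [Fintype J] [DecidableEq J] (e : OrthonormalBasis J ℝ V)
    (T : Submodule ℝ V) (A : Finset J) (hA : A.card ≤ finrank ℝ T) :
    ∃ e' : OrthonormalBasis J ℝ V, ∀ j ∈ A, e' j ∈ T := by
  classical
  have : FiniteDimensional ℝ V := Module.Finite.of_basis e.toBasis
  have hc : finrank ℝ V = Fintype.card J := finrank_eq_card_basis e.toBasis
  have u := stdOrthonormalBasis ℝ T
  obtain ⟨g⟩ : Nonempty (A ↪ Fin (finrank ℝ T)) := by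
    refine Function.Embedding.nonempty_of_card_le ?_
    simpa using hA
  let v : J → V := fun j => if h : j ∈ A then ((u (g ⟨j, h⟩) : T) : V) else 0
  have hv : Orthonormal ℝ ((A : Set J).domRestrict v) := by
    have h1 : Orthonormal ℝ (fun i : Fin (finrank ℝ T) => ((u i : T) : V)) :=
      u.orthonormal.comp_linearIsometry T.subtypeₗᵢ
    have h2 : Orthonormal ℝ (fun j : A => ((u (g j) : T) : V)) := h1.comp g g.injective
    have h3 : (A : Set J).domRestrict v = fun j => ((u (g ⟨j.1, j.2⟩) : T) : V) := by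
      funext j
      simp only [Set.domRestrict_apply, v]
      rw [dif_pos (Finset.mem_coe.mp j.2)]
    rw [h3]
    exact h2
  obtain ⟨b, hb⟩ := hv.exists_orthonormalBasis_extension_of_card_eq hc
  refine ⟨b, fun j hj => ?_⟩
  rw [hb j (Finset.mem_coe.mpr hj)]
  simp only [v, dif_pos hj]
  exact (u (g ⟨j, hj⟩)).2

variable {m : ℕ}

/-- components -/
theorem gbc_gauss [FiniteDimensional ℝ W] (e : OrthonormalBasis (Fin m × Bool) ℝ V)
    (β : V →ₗ[ℝ] V →ₗ[ℝ] W) :
    gbc e (gaussT β) = 1 / ((8 * Real.pi) ^ m * m.factorial) * (2 ^ m *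
      Yf (fun i k j l => ∑ a : Fin (finrank ℝ W),
        inner ℝ (β (e i) (e k)) (stdOrthonormalBasis ℝ W a) *
        inner ℝ (β (e j) (e l)) (stdOrthonormalBasis ℝ W a))) := by
  have h0 : ∀ i k j l, ∑ a : Fin (finrank ℝ W),
        inner ℝ (β (e i) (e k)) (stdOrthonormalBasis ℝ W a) *
        inner ℝ (β (e j) (e l)) (stdOrthonormalBasis ℝ W a) =
      inner ℝ (β (e i) (e k)) (β (e j) (e l)) := by
    intro i k j l
    rw [← (stdOrthonormalBasis ℝ W).sum_inner_mul_inner]
    refine Finset.sum_congr rfl fun a _ => ?_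
    rw [real_inner_comm (β (e j) (e l))]
  have h1 := lift_sum (B := Fin m) (fun i k j l => ∑ a : Fin (finrank ℝ W),
        inner ℝ (β (e i) (e k)) (stdOrthonormalBasis ℝ W a) *
        inner ℝ (β (e j) (e l)) (stdOrthonormalBasis ℝ W a))
    (fun i j k l => gaussT β (e i) (e j) (e k) (e l)) (by
      intro i j k l
      rw [h0, h0]
      rfl)
  rw [Fintype.card_fin] at h1
  rw [← h1]
  rfl

/-- **The sign for second fundamental forms with a half dimensional asymptotic subspace.** -/
theorem sign_of_asymptotic [FiniteDimensional ℝ W] (e : OrthonormalBasis (Fin m × Bool) ℝ V)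
    (β : V →ₗ[ℝ] V →ₗ[ℝ] W) (hs : ∀ x y, β x y = β y x) (T : Submodule ℝ V)
    (hT : ∀ x ∈ T, ∀ y ∈ T, β x y = 0) (hd : m ≤ finrank ℝ T) :
    0 ≤ (-1) ^ m * gbc e (gaussT β) ∧ (m < finrank ℝ T → gbc e (gaussT β) = 0) ∧
      ((∃ ν : W, ∀ x : V, (∀ y : V, inner ℝ (β x y) ν = 0) → x = 0) →
        0 < (-1) ^ m * gbc e (gaussT β)) := by
  classical
  have hπ := Real.pi_pos
  have hc : 0 < 1 / ((8 * Real.pi) ^ m * (m.factorial : ℝ)) * 2 ^ m := by positivity
  set w := stdOrthonormalBasis ℝ W with hw
  have hcard : (univ.filter fun j : Fin m × Bool => j.2 = false).card = m := by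
    rw [Finset.card_filter, Fintype.sum_prod_type]
    simp
  have hfac : ∀ Y : ℝ, (-1) ^ m * (1 / ((8 * Real.pi) ^ m * (m.factorial : ℝ)) * (2 ^ m * Y)) =
      (1 / ((8 * Real.pi) ^ m * (m.factorial : ℝ)) * 2 ^ m) * ((-1) ^ m * Y) := by
    intro Y; ring
  refine ⟨?_, ?_, ?_⟩
  · obtain ⟨e', he'⟩ := adapted e T (univ.filter fun j : Fin m × Bool => j.2 = false)
      (by rw [hcard]; exact hd)
    have heT : ∀ b, e' (b, false) ∈ T := fun b => he' _ (by simp)
    rw [Pool.Agent.W688.HD.bas m V e e' _ (gaussT_curv β hs), gbc_gauss, hfac]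
    exact mul_nonneg hc.le (Yf_nonneg (m := m) (fun (a : Fin (finrank ℝ W)) i k =>
      inner ℝ (β (e' i) (e' k)) (w a)) (fun a i j => by rw [hs])
      (fun a b c => by rw [hT _ (heT b) _ (heT c), inner_zero_left]))
  · intro hlt
    have hm : 0 < m := by
      by_contra h0
      have h1 : m = 0 := by omega
      subst h1
      have h2 : finrank ℝ V = 0 := by
        rw [finrank_eq_card_basis e.toBasis]; simp
      have : FiniteDimensional ℝ V := Module.Finite.of_basis e.toBasis
      have h3 := Submodule.finrank_le T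
      omega
    set b₀ : Fin m := ⟨0, hm⟩ with hb₀
    obtain ⟨e', he'⟩ := adapted e T (insert (b₀, true)
      (univ.filter fun j : Fin m × Bool => j.2 = false)) (by
        rw [Finset.card_insert_of_notMem (by simp), hcard]; exact hlt)
    have heT : ∀ b, e' (b, false) ∈ T := fun b => he' _ (by simp)
    have heT' : e' (b₀, true) ∈ T := he' _ (by simp)
    rw [Pool.Agent.W688.HD.bas m V e e' _ (gaussT_curv β hs), gbc_gauss,
      Yf_zero (m := m) (fun (a : Fin (finrank ℝ W)) i k => inner ℝ (β (e' i) (e' k)) (w a)) b₀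
      (fun a b c => by rw [hT _ (heT b) _ (heT c), inner_zero_left])
      (fun a c => by rw [hT _ heT' _ (heT c), inner_zero_left])
      (fun a c => by rw [hT _ (heT c) _ heT', inner_zero_left])
      (fun a => by rw [hT _ heT' _ heT', inner_zero_left]), mul_zero, mul_zero]
  · rintro ⟨ν, hν⟩
    obtain ⟨e', he'⟩ := adapted e T (univ.filter fun j : Fin m × Bool => j.2 = false)
      (by rw [hcard]; exact hd)
    have heT : ∀ b, e' (b, false) ∈ T := fun b => he' _ (by simp)
    rw [Pool.Agent.W688.HD.bas m V e e' _ (gaussT_curv β hs), gbc_gauss, hfac]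
    refine mul_pos hc (Yf_pos (m := m) (fun (a : Fin (finrank ℝ W)) i k =>
      inner ℝ (β (e' i) (e' k)) (w a)) (fun a i j => by rw [hs])
      (fun a b c => by rw [hT _ (heT b) _ (heT c), inner_zero_left])
      (fun a => inner ℝ (w a) ν) ?_)
    have hent : (Matrix.of fun b k : Fin m => ∑ a, inner ℝ (w a) ν *
        inner ℝ (β (e' (b, false)) (e' (k, true))) (w a)) =
        Matrix.of fun b k : Fin m => inner ℝ (β (e' (b, false)) (e' (k, true))) ν := by
      ext b k
      simp only [Matrix.of_apply]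
      rw [← w.sum_inner_mul_inner]
      exact Finset.sum_congr rfl fun a _ => mul_comm _ _
    rw [hent]
    intro hdet
    obtain ⟨v, hv0, hv⟩ := Matrix.exists_vecMul_eq_zero_iff.mpr hdet
    apply hv0
    set x : V := ∑ b, v b • e' (b, false) with hx
    have hxT : x ∈ T := Submodule.sum_mem _ fun b _ => T.smul_mem _ (heT b)
    have h1 : ∀ j : Fin m × Bool, inner ℝ (β x (e' j)) ν = 0 := by
      rintro ⟨k, β'⟩
      cases β' with
      | false => rw [hT x hxT _ (heT k), inner_zero_left]
      | true =>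
        have h2 := congrFun hv k
        simp only [Matrix.vecMul, dotProduct, Matrix.of_apply, Pi.zero_apply] at h2
        rw [hx, map_sum, LinearMap.sum_apply, sum_inner, ← h2]
        refine Finset.sum_congr rfl fun b _ => ?_
        rw [map_smul, LinearMap.smul_apply, inner_smul_left]
        rfl
    have h3 : x = 0 := by
      apply hν
      intro y
      rw [← e'.sum_repr y, map_sum, sum_inner]
      refine Finset.sum_eq_zero fun j _ => ?_
      rw [map_smul, inner_smul_left, h1, mul_zero]
    funext b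
    have h4 : inner ℝ (e' (b, false)) x = v b := by
      rw [hx, inner_sum]
      rw [Finset.sum_eq_single b]
      · rw [inner_smul_right, real_inner_self_eq_norm_sq, e'.orthonormal.1]
        simp
      · intro c _ hcb
        rw [inner_smul_right, e'.orthonormal.2 (by simpa using hcb.symm), mul_zero]
      · intro h; exact absurd (Finset.mem_univ _) h
    rw [← h4, h3, inner_zero_right]
    rfl

/-- **The Hopf sign in codimension at most `m`.** -/
theorem low_codimension [FiniteDimensional ℝ W] (e : OrthonormalBasis (Fin m × Bool) ℝ V)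
    (β : V →ₗ[ℝ] V →ₗ[ℝ] W) (hs : ∀ x y, β x y = β y x) (hK : ∀ x y, gaussT β x y x y ≤ 0)
    (hd : finrank ℝ W ≤ m) :
    0 ≤ (-1) ^ m * gbc e (gaussT β) ∧ (finrank ℝ W < m → gbc e (gaussT β) = 0) ∧
      ((∃ ν : W, ∀ x : V, (∀ y : V, inner ℝ (β x y) ν = 0) → x = 0) →
        0 < (-1) ^ m * gbc e (gaussT β)) := by
  have : FiniteDimensional ℝ V := Module.Finite.of_basis e.toBasis
  have hV : finrank ℝ V = 2 * m := by
    rw [finrank_eq_card_basis e.toBasis]
    simp [mul_comm]
  obtain ⟨T, -, hT, hTd⟩ := exists_asymptotic β hs hK (2 * m) ⊤ ⊤ (by rw [finrank_top, hV])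
    (fun _ _ _ _ => Submodule.mem_top)
  rw [finrank_top, finrank_top, hV] at hTd
  obtain ⟨h1, h2, h3⟩ := sign_of_asymptotic e β hs T hT (by omega)
  exact ⟨h1, fun h => h2 (by omega), h3⟩

end Pool.Agent.TH420.HS
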