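import Mathlib

/-!
# Contractions of a symmetric tensor with itself are nonnegative
-/

set_option autoImplicit false

namespace Pool.Agent.TH420.HS

open Finset

/-- two maps with fibres of the same size differ by a permutation of the source -/
theorem exists_perm_of_fiber {X B : Type} [Fintype X] [DecidableEq X] [Fintype B] [DecidableEq B]
    (u v : X → B)
    (h : ∀ b, (univ.filter fun x => u x = b).card = (univ.filter fun x => v x = b).card) :
    ∃ s : Equiv.Perm X, ∀ x, v x = u (s x) := by
  classical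
  have hb : ∀ b, Nonempty ({x // v x = b} ≃ {x // u x = b}) := by
    intro b
    refine ⟨Fintype.equivOfCardEq ?_⟩
    rw [Fintype.card_subtype, Fintype.card_subtype, h b]
  let s : X ≃ X := (Equiv.sigmaFiberEquiv v).symm.trans
    ((Equiv.sigmaCongrRight fun b => (hb b).some).trans (Equiv.sigmaFiberEquiv u))
  refine ⟨s, fun x => ?_⟩
  have : u (s x) = v x := by
    simp only [s, Equiv.trans_apply]
    have h1 := (((hb (v x)).some) ⟨x, rfl⟩).2
    exact h1
  exact this.symm

/-- sums over functions which split into three groups of arguments -/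
theorem sum_split {B ι : Type} [Fintype B] [DecidableEq B] [Fintype ι] [DecidableEq ι]
    (F E : B → Prop) [DecidablePred F] [DecidablePred E] (hFE : ∀ b, ¬ (F b ∧ E b))
    (φ : B → B) (hFφ : ∀ b, F b → E (φ b)) (hEφ : ∀ b, E b → F (φ b)) (hφφ : ∀ b, φ (φ b) = b)
    (hP : ∀ b, ¬ F b → ¬ E b → φ b = b)
    (h : (B → ι) → ℝ) (hh : ∀ α α' : B → ι, (∀ b, ¬ E b → α b = α' b) → h α = h α') :
    0 ≤ ∑ α : B → ι, h α * h (α ∘ φ) := by
  classical
  -- split off the arguments in `P`
  rw [← Equiv.sum_comp (Equiv.piEquivPiSubtypeProd (fun b => ¬ F b ∧ ¬ E b) (fun _ => ι)).symm,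
    Fintype.sum_prod_type]
  refine Finset.sum_nonneg fun c _ => ?_
  set g : ({b : B // ¬ (¬ F b ∧ ¬ E b)} → ι) → (B → ι) := fun a =>
    (Equiv.piEquivPiSubtypeProd (fun b => ¬ F b ∧ ¬ E b) (fun _ => ι)).symm (c, a) with hg
  -- the remaining arguments: functions on `F` and on `E`
  by_cases hι : Nonempty ι
  swap
  · by_cases hB : Nonempty B
    · obtain ⟨b⟩ := hB
      refine Finset.sum_nonneg fun a _ => ?_
      exact absurd ⟨g a b⟩ hι
    · refine Finset.sum_nonneg fun a _ => ?_
      have : g a ∘ φ = g a := by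
        funext b; exact absurd ⟨b⟩ hB
      rw [this]
      exact mul_self_nonneg _
  obtain ⟨i₀⟩ := hι
  have gval : ∀ a b, g a b = if hb : ¬ F b ∧ ¬ E b then c ⟨b, hb⟩ else a ⟨b, hb⟩ := by
    intro a b
    simp only [hg, Equiv.piEquivPiSubtypeProd, Equiv.coe_fn_symm_mk]
  -- `k a₁` is the value of `h` for the arguments `a₁` on `F`
  let mk : ({b : B // F b} → ι) → (B → ι) := fun a₁ b =>
    if hb : ¬ F b ∧ ¬ E b then c ⟨b, hb⟩ else if hb : F b then a₁ ⟨b, hb⟩ else i₀
  let k : ({b : B // F b} → ι) → ℝ := fun a₁ => h (mk a₁)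
  let eqv : ({b : B // ¬ (¬ F b ∧ ¬ E b)} → ι) ≃ ({b : B // F b} → ι) × ({b : B // F b} → ι) := {
    toFun := fun a => (fun b => a ⟨b.1, by have := b.2; tauto⟩,
      fun b => a ⟨φ b.1, by have := hFφ b.1 b.2; tauto⟩)
    invFun := fun p b => if hb : F b.1 then p.1 ⟨b.1, hb⟩ else
      p.2 ⟨φ b.1, hEφ _ (by have := b.2; tauto)⟩
    left_inv := by
      intro a
      funext b
      by_cases hb : F b.1
      · simp [hb]
      · simp only [hb, dif_neg, not_false_iff]
        exact congrArg a (Subtype.ext (hφφ b.1))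
    right_inv := by
      intro p
      refine Prod.ext ?_ ?_
      · funext b
        simp [b.2]
      · funext b
        have h1 : ¬ F (φ b.1) := fun h2 => hFE _ ⟨h2, hFφ _ b.2⟩
        simp only [h1, dif_neg, not_false_iff]
        exact congrArg p.2 (Subtype.ext (hφφ b.1)) }
  have h1 : ∀ a, h (g a) = k (eqv a).1 := by
    intro a
    refine hh _ _ fun b hb => ?_
    rw [gval]
    by_cases hF : F b
    · have h2 : ¬ (¬ F b ∧ ¬ E b) := by tauto
      simp only [mk, h2, dif_neg, not_false_iff, hF, dif_pos, eqv]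
      rfl
    · have h2 : ¬ F b ∧ ¬ E b := ⟨hF, hb⟩
      simp only [mk, h2, dif_pos]
      simp [hF, hb]
  have h2 : ∀ a, h (g a ∘ φ) = k (eqv a).2 := by
    intro a
    refine hh _ _ fun b hb => ?_
    simp only [Function.comp_apply]
    rw [gval]
    by_cases hF : F b
    · have h3 : E (φ b) := hFφ b hF
      have h4 : ¬ (¬ F (φ b) ∧ ¬ E (φ b)) := by tauto
      have h5 : ¬ (¬ F b ∧ ¬ E b) := by tauto
      simp only [mk, h4, h5, dif_neg, not_false_iff, hF, dif_pos, eqv]
      rfl
    · have h6 := hP b hF hb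
      have h2 : ¬ F b ∧ ¬ E b := ⟨hF, hb⟩
      have h7 : ¬ F (φ b) ∧ ¬ E (φ b) := by rw [h6]; exact h2
      rw [dif_pos h7]
      simp only [mk]
      rw [dif_pos h2]
      congr 1
      exact Subtype.ext h6
  have h3 : ∑ a, h (g a) * h (g a ∘ φ) = (∑ a₁, k a₁) ^ 2 := by
    simp only [h1, h2]
    rw [Equiv.sum_comp eqv (fun p : ({b : B // F b} → ι) × ({b : B // F b} → ι) => k p.1 * k p.2),
      Fintype.sum_prod_type, sq, Finset.sum_mul_sum]
  rw [h3]
  exact sq_nonneg _

/-- the main positivity statement -/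
theorem contraction_nonneg {X B ι : Type} [Fintype X] [DecidableEq X] [Fintype B] [DecidableEq B]
    [Fintype ι] [DecidableEq ι] (u v : X → B)
    (huv : ∀ b, (univ.filter fun x => u x = b).card + (univ.filter fun x => v x = b).card = 2)
    (D : (X → ι) → ℝ) (hD : ∀ (s : Equiv.Perm X) (c : X → ι), D (c ∘ s) = D c) :
    0 ≤ ∑ α : B → ι, D (α ∘ u) * D (α ∘ v) := by
  classical
  set F : B → Prop := fun b => (univ.filter fun x => u x = b).card = 2 with hF
  set E : B → Prop := fun b => (univ.filter fun x => v x = b).card = 2 with hE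
  have hu : ∑ b, (univ.filter fun x => u x = b).card = Fintype.card X := by
    rw [← Finset.card_univ, Finset.card_eq_sum_card_fiberwise (f := u) (t := univ)
      (fun _ _ => Finset.mem_coe.mpr (Finset.mem_univ _))]
  have hv : ∑ b, (univ.filter fun x => v x = b).card = Fintype.card X := by
    rw [← Finset.card_univ, Finset.card_eq_sum_card_fiberwise (f := v) (t := univ)
      (fun _ _ => Finset.mem_coe.mpr (Finset.mem_univ _))]
  have hcard : (univ.filter F).card = (univ.filter E).card := by
    have h1 : ∀ b, ((univ.filter fun x => u x = b).card : ℤ) - (univ.filter fun x => v x = b).card =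
        2 * (if F b then 1 else 0) - 2 * (if E b then 1 else 0) := by
      intro b
      have h2 := huv b
      simp only [hF, hE]
      rcases Nat.lt_or_ge (univ.filter fun x => u x = b).card 3 with h3 | h3
      · interval_cases h4 : (univ.filter fun x => u x = b).card
        · have h5 : (univ.filter fun x => v x = b).card = 2 := by omega
          rw [h5]; norm_num
        · have h5 : (univ.filter fun x => v x = b).card = 1 := by omega
          rw [h5]; norm_num
        · have h5 : (univ.filter fun x => v x = b).card = 0 := by omega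
          rw [h5]; norm_num
      · omega
    have h2 : ∑ b, (((univ.filter fun x => u x = b).card : ℤ) -
        (univ.filter fun x => v x = b).card) = 0 := by
      rw [Finset.sum_sub_distrib, ← Nat.cast_sum, ← Nat.cast_sum, hu, hv, sub_self]
    rw [Finset.sum_congr rfl fun b _ => h1 b, Finset.sum_sub_distrib, ← Finset.mul_sum,
      ← Finset.mul_sum] at h2
    rw [Finset.card_filter, Finset.card_filter]
    have h3 : (∑ b, (if F b then (1 : ℤ) else 0)) = ∑ b, (if E b then (1 : ℤ) else 0) := by linarith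
    have h4 : ((∑ b, (if F b then 1 else 0) : ℕ) : ℤ) = ((∑ b, (if E b then 1 else 0) : ℕ) : ℤ) := by
      push_cast
      exact h3
    exact_mod_cast h4
  have hFE : ∀ b, ¬ (F b ∧ E b) := by
    rintro b ⟨h1, h2⟩
    have := huv b
    simp only [hF, hE] at h1 h2
    omega
  have heq : Nonempty ({b // F b} ≃ {b // E b}) := by
    refine ⟨Fintype.equivOfCardEq ?_⟩
    rw [Fintype.card_subtype, Fintype.card_subtype]
    exact hcard
  obtain ⟨φ₀⟩ := heq
  let φ : B → B := fun b => if hb : F b then (φ₀ ⟨b, hb⟩).1 else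
    if hb : E b then (φ₀.symm ⟨b, hb⟩).1 else b
  have φF : ∀ b (hb : F b), φ b = (φ₀ ⟨b, hb⟩).1 := fun b hb => by simp only [φ, dif_pos hb]
  have φE : ∀ b (hb : E b), φ b = (φ₀.symm ⟨b, hb⟩).1 := fun b hb => by
    have h1 : ¬ F b := fun h => hFE b ⟨h, hb⟩
    simp only [φ, dif_neg h1, dif_pos hb]
  have φP : ∀ b, ¬ F b → ¬ E b → φ b = b := fun b h1 h2 => by
    simp only [φ, dif_neg h1, dif_neg h2]
  have hFφ : ∀ b, F b → E (φ b) := fun b hb => by rw [φF b hb]; exact (φ₀ ⟨b, hb⟩).2
  have hEφ : ∀ b, E b → F (φ b) := fun b hb => by rw [φE b hb]; exact (φ₀.symm ⟨b, hb⟩).2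
  have hφφ : ∀ b, φ (φ b) = b := by
    intro b
    by_cases h1 : F b
    · have h2 := hFφ b h1
      rw [φE _ h2]
      have : (⟨φ b, h2⟩ : {b // E b}) = φ₀ ⟨b, h1⟩ := Subtype.ext (φF b h1)
      rw [this, Equiv.symm_apply_apply]
    · by_cases h2 : E b
      · have h3 := hEφ b h2
        rw [φF _ h3]
        have : (⟨φ b, h3⟩ : {b // F b}) = φ₀.symm ⟨b, h2⟩ := Subtype.ext (φE b h2)
        rw [this, Equiv.apply_symm_apply]
      · rw [φP b h1 h2, φP b h1 h2]
  have hfib : ∀ b, (univ.filter fun x => (φ ∘ u) x = b).card =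
      (univ.filter fun x => v x = b).card := by
    intro b
    have h1 : (univ.filter fun x => (φ ∘ u) x = b) = univ.filter fun x => u x = φ b := by
      ext x
      simp only [Finset.mem_filter, Finset.mem_univ, true_and, Function.comp_apply]
      constructor
      · intro h; rw [← h, hφφ]
      · intro h; rw [h, hφφ]
    rw [h1]
    have h2 := huv b
    have h3 := huv (φ b)
    by_cases hb : F b
    · have h4 := hFφ b hb
      simp only [hF, hE] at hb h4
      omega
    · by_cases hb' : E b
      · have h4 := hEφ b hb'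
        simp only [hF, hE] at hb' h4
        omega
      · rw [φP b hb hb']
        simp only [hF, hE] at hb hb'
        omega
  obtain ⟨s, hs⟩ := exists_perm_of_fiber (φ ∘ u) v hfib
  have h1 : ∀ α : B → ι, D (α ∘ v) = D ((α ∘ φ) ∘ u) := by
    intro α
    have : α ∘ v = ((α ∘ φ) ∘ u) ∘ s := by
      funext x
      simp only [Function.comp_apply]
      rw [hs x]
      rfl
    rw [this, hD]
  simp only [h1]
  refine sum_split F E hFE φ hFφ hEφ hφφ φP (fun α => D (α ∘ u)) ?_
  intro α α' h
  have : α ∘ u = α' ∘ u := by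
    funext x
    simp only [Function.comp_apply]
    refine h _ fun hx => ?_
    have h2 := huv (u x)
    simp only [hE] at hx
    have h3 : (univ.filter fun y => u y = u x).card = 0 := by omega
    rw [Finset.card_eq_zero] at h3
    have h4 : x ∈ univ.filter fun y => u y = u x := by simp
    rw [h3] at h4
    exact absurd h4 (Finset.notMem_empty _)
  simp only [this]

end Pool.Agent.TH420.HS
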